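import Pool.Agent.H66.SYM.Basic

/-!
HYY: the multiplicity of the zero weight, first part.
-/

namespace Pool.H66.SYM

open Filter Topology

theorem HYY_bd_mul {V : Type} {f g : V → ℂ} (hf : Bd f) (hg : Bd g) : Bd (f * g) := by
  obtain ⟨C, hC⟩ := hf
  obtain ⟨D, hD⟩ := hg
  refine ⟨|C| * |D|, fun v => ?_⟩
  rw [Pi.mul_apply, norm_mul]
  exact mul_le_mul ((hC v).trans (le_abs_self _)) ((hD v).trans (le_abs_self _))
    (norm_nonneg _) (abs_nonneg _)

theorem HYY_bd_sub {V : Type} {f g : V → ℂ} (hf : Bd f) (hg : Bd g) : Bd (f - g) := by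
  obtain ⟨C, hC⟩ := hf
  obtain ⟨D, hD⟩ := hg
  refine ⟨C + D, fun v => ?_⟩
  rw [Pi.sub_apply]
  exact (norm_sub_le _ _).trans (add_le_add (hC v) (hD v))

theorem HYY_bd_const {V : Type} (c : ℂ) : Bd (fun _ : V => c) := ⟨‖c‖, fun _ => le_rfl⟩

theorem HYY_bd_prod {V ι : Type} (s : Finset ι) (f : ι → V → ℂ) (hf : ∀ i, Bd (f i)) :
    Bd (∏ i ∈ s, f i) := by
  classical
  induction s using Finset.induction_on with
  | empty =>
    rw [Finset.prod_empty]
    exact HYY_bd_const 1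
  | insert i s hi ih =>
    rw [Finset.prod_insert hi]
    exact HYY_bd_mul (hf i) ih

section

variable {A : Aut} {τ : A.Cusp} {m : ℕ} (L : Lim A τ m)

theorem HYY_M0 : L.M 0 = 0 := by
  have h := L.M_add 0 0 (HYY_bd_const 0) (HYY_bd_const 0)
  rw [add_zero] at h
  exact left_eq_add.1 h

theorem HYY_Msub (f g : A.Pl → ℂ) (hf : Bd f) (hg : Bd g) : L.M (f - g) = L.M f - L.M g := by
  have h := L.M_add (f - g) g (HYY_bd_sub hf hg) hg
  rw [sub_add_cancel] at h
  rw [h, add_sub_cancel_right]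

/-- Replacing `h` by `g` in a product, against `K`. -/
theorem HYY_repl (K : L.Q) (h g : A.Pl → ℂ) (hh : Bd h) (hg : Bd g)
    (hK : K * L.M h = K * L.M g) (s : Finset ℕ) : ∀ r : A.Pl → ℂ, Bd r →
    K * L.M ((∏ b ∈ s, (h - fun _ => (b : ℂ))) * r)
      = K * L.M ((∏ b ∈ s, (g - fun _ => (b : ℂ))) * r) := by
  classical
  induction s using Finset.induction_on with
  | empty => intro r _; rw [Finset.prod_empty, Finset.prod_empty]
  | insert b s hb ih =>
    intro r hr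
    have hb1 : Bd (h - fun _ => (b : ℂ)) := HYY_bd_sub hh (HYY_bd_const _)
    have hb2 : Bd (g - fun _ => (b : ℂ)) := HYY_bd_sub hg (HYY_bd_const _)
    have hP : Bd (∏ b ∈ s, (g - fun _ => (b : ℂ))) :=
      HYY_bd_prod s _ fun b => HYY_bd_sub hg (HYY_bd_const _)
    have e1 : (∏ b ∈ insert b s, (h - fun _ => (b : ℂ))) * r =
        (∏ b ∈ s, (h - fun _ => (b : ℂ))) * ((h - fun _ => (b : ℂ)) * r) := by
      rw [Finset.prod_insert hb]
      ring
    have e2 : (∏ b ∈ insert b s, (g - fun _ => (b : ℂ))) * r =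
        (g - fun _ => (b : ℂ)) * ((∏ b ∈ s, (g - fun _ => (b : ℂ))) * r) := by
      rw [Finset.prod_insert hb]
      ring
    have e3 : (∏ b ∈ s, (g - fun _ => (b : ℂ))) * ((h - fun _ => (b : ℂ)) * r) =
        (h - fun _ => (b : ℂ)) * ((∏ b ∈ s, (g - fun _ => (b : ℂ))) * r) := by
      ring
    rw [e1, ih _ (HYY_bd_mul hb1 hr), e2, e3,
      L.M_mul _ _ hb1 (HYY_bd_mul hP hr), L.M_mul _ _ hb2 (HYY_bd_mul hP hr),
      HYY_Msub L h _ hh (HYY_bd_const _), HYY_Msub L g _ hg (HYY_bd_const _),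
      ← mul_assoc, ← mul_assoc, mul_sub, mul_sub, hK]

end

theorem HYY_msum {α : Type*} [DecidableEq α] (B : Multiset α) (T : Finset α)
    (h : ∀ a ∈ B, a ∈ T) (f : α → ℂ) : ∑ a ∈ T, (B.count a : ℂ) * f a = (B.map f).sum := by
  rw [Finset.sum_multiset_map_count]
  symm
  have h1 : ∀ a ∈ B.toFinset, B.count a • f a = (B.count a : ℂ) * f a := fun a _ => by
    rw [nsmul_eq_mul]
  rw [Finset.sum_congr rfl h1]
  apply Finset.sum_subset
  · intro a ha
    exact h a (Multiset.mem_toFinset.1 ha)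
  · intro a _ ha
    rw [Multiset.mem_toFinset] at ha
    rw [Multiset.count_eq_zero_of_notMem ha, Nat.cast_zero, zero_mul]

theorem s_HYY (hKAY : S_KAY) (hPEX : S_PEX) (hCN2 : S_CN2) (hDEG : S_DEG) (hRPS : S_RPS)
    (hRMU : S_RMU) (hRTA : S_RTA) (hBAS : S_BAS) : S_HYY := by
  classical
  intro m H
  obtain ⟨M₀, hM₀⟩ := hKAY m H
  refine ⟨max M₀ (m ^ H), fun A τ M hM ctx L y hy => ?_⟩
  obtain ⟨K0, hK0R, hK0E, hK0S⟩ := hM₀ A τ M (le_trans (le_max_left _ _) hM) ctx L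
  set D := A.deg y with hD
  have hDM : D ≤ M := hy.1.trans ((le_max_right _ _).trans hM)
  obtain ⟨bcard, bne, bpow, bone, -⟩ := hBAS A
  have ctm := ctx.hm
  have ctd := ctx.deg
  obtain ⟨-, -, -, rmul, rle, rmono⟩ := hRMU A τ m (ctx.sym 2) ctm ctd
  have hone : (1 : A.Pt → ℂ) ∈ A.RR τ m := by
    have h1 := (hRTA A τ m ctm ctd).1
    have h2 : A.tr A.one = 1 := by
      ext p
      show (A.eig A.one p).sum = 1
      rw [bone p, Multiset.sum_singleton]
    rw [← h2]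
    exact AddSubgroup.subset_closure ⟨A.one, ⟨0, 0, h1⟩, rfl⟩
  have hyRR : A.tr y ∈ A.RR τ m := AddSubgroup.subset_closure ⟨y, ⟨0, H, hy⟩, rfl⟩
  -- patterns
  choose B hB using fun v => (hPEX A τ m 0 H y hy (A.frob v) (L.c v) (L.c_ord v)).1
  have hBcard : ∀ v, (B v).card = D := fun v => by
    rw [hD, ← bcard y (A.frob v), (hB v).2, Multiset.card_map]
  haveI : Fintype (Wt m 0 H) := (Wt_finite m 0 H).fintype
  let f : Wt m 0 H → A.Pl → ℂ := fun a v => ((B v).count a.1 : ℂ)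
  have hf : ∀ a, Bd (f a) := fun a => ⟨D, fun v => by
    show ‖((B v).count a.1 : ℂ)‖ ≤ D
    rw [Complex.norm_natCast]
    exact_mod_cast (hBcard v) ▸ Multiset.count_le_card a.1 (B v)⟩
  obtain ⟨h, hh, hhE⟩ := L.lim (Wt m 0 H) f (fun a => a.1) hf (fun n p => A.tr y (p.pow n))
    (fun n hn => (hRPS A τ m ctx.sym ctm ctd).2.2 (A.tr y) hyRR n hn) (by
      intro n hn v
      show ∑ a : Wt m 0 H, ((B v).count a.1 : ℂ) * mon (L.c v) a.1 ^ n
        = (A.eig y ((A.frob v).pow n)).sum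
      rw [bpow y (A.frob v) n, (hB v).2, Multiset.map_map]
      simp only [zpow_natCast, Function.comp_def]
      rw [← HYY_msum (B v) (Wt_finite m 0 H).toFinset (fun a ha => by
        rw [Set.Finite.mem_toFinset]
        exact (hB v).1 a ha) (fun a => mon (L.c v) a ^ n)]
      exact (Finset.sum_subtype (Wt_finite m 0 H).toFinset
        (fun a => (Wt_finite m 0 H).mem_toFinset)
        (fun a => ((B v).count a : ℂ) * mon (L.c v) a ^ n)).symm)
  let a0 : Wt m 0 H := ⟨0, Wt_zero m H⟩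
  let K0M : L.Q := L.M fun v => K0 (A.frob v)
  have hK : K0M * L.M (fun v => h (A.frob v)) = K0M * L.M (f a0) := by
    rw [← hhE, Finset.mul_sum, Finset.sum_eq_single a0]
    · show K0M * (L.M (f a0) * L.E 0) = _
      rw [L.E_zero, mul_one]
    · intro a _ ha
      have h1 := hK0E a.1 a.2 (fun h0 => ha (Subtype.ext h0))
      rw [mul_left_comm, h1, mul_zero]
    · intro h0
      exact absurd (Finset.mem_univ _) h0
  have hbh : Bd (fun v => h (A.frob v)) := L.bd h hh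
  have hrep := HYY_repl L K0M (fun v => h (A.frob v)) (f a0) hbh (hf a0) hK
  -- products
  have hprodR : ∀ s : Finset ℕ, K0 * ∏ b ∈ s, (h - fun _ => (b : ℂ)) ∈ A.RR τ m := by
    intro s
    apply rmul K0 hK0R
    induction s using Finset.induction_on with
    | empty =>
      rw [Finset.prod_empty]
      exact hone
    | insert b s hb ih =>
      rw [Finset.prod_insert hb]
      apply rmul _ _ _ ih
      apply AddSubgroup.sub_mem _ hh
      have h1 : (fun _ => (b : ℂ) : A.Pt → ℂ) = b • (1 : A.Pt → ℂ) := by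
        ext p
        simp
      rw [h1]
      exact AddSubgroup.nsmul_mem _ hone b
  have hprodM : ∀ s : Finset ℕ, L.M (fun v => (K0 * ∏ b ∈ s, (h - fun _ => (b : ℂ))) (A.frob v))
      = K0M * L.M ((∏ b ∈ s, ((fun v => h (A.frob v)) - fun _ => (b : ℂ))) * 1) := by
    intro s
    rw [mul_one]
    have h1 : Bd (∏ b ∈ s, ((fun v => h (A.frob v)) - fun _ => (b : ℂ))) :=
      HYY_bd_prod s _ fun b => HYY_bd_sub hbh (HYY_bd_const _)
    have h2 := L.M_mul (fun v => K0 (A.frob v)) _ (L.bd K0 hK0R) h1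
    rw [← h2]
    congr 1
    ext v
    simp [Finset.prod_apply]
  have hfv : ∀ v, f a0 v = ((B v).count 0 : ℂ) := fun v => rfl
  have hfle : ∀ v, (B v).count 0 ≤ D := fun v => (hBcard v) ▸ Multiset.count_le_card 0 (B v)
  -- the values of `h`
  have hval : ∀ p, K0 p ≠ 0 → ∃ i : ℕ, i ≤ D ∧ h p = i := by
    have h1 : K0 * ∏ b ∈ Finset.range (D + 1), (h - fun _ => (b : ℂ)) = 0 := by
      apply L.inj _ (hprodR _)
      rw [hprodM, hrep _ 1 (HYY_bd_const 1), mul_one]
      have h2 : (∏ b ∈ Finset.range (D + 1), (f a0 - fun _ => (b : ℂ))) = 0 := by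
        ext v
        rw [Finset.prod_apply]
        refine Finset.prod_eq_zero (Finset.mem_range.2 (Nat.lt_succ_of_le (hfle v))) ?_
        rw [Pi.sub_apply, hfv, sub_self]
      rw [h2, HYY_M0, mul_zero]
    intro p hp
    have h2 := congrFun h1 p
    rw [Pi.mul_apply, Finset.prod_apply] at h2
    have h3 := (mul_eq_zero.1 h2).resolve_left hp
    obtain ⟨b, hb, hb0⟩ := Finset.prod_eq_zero_iff.1 h3
    exact ⟨b, Nat.lt_succ_iff.1 (Finset.mem_range.1 hb), sub_eq_zero.1 hb0⟩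
  by_cases hSpec : Nonempty (Spec A τ m M)
  · obtain ⟨S0⟩ := hSpec
    have hcon : ∀ S : Spec A τ m M, ∀ n x, n ∣ S.N → h (S.pt n x) = h ⟨S0.v, 1, 1⟩ := by
      intro S n x hn
      rw [hCN2 A τ m M ctx S h hh D hDM (fun n x hn => hval _ (hK0S S n x hn)) n x hn]
      exact hDEG A τ m h hh S.v S0.v
    obtain ⟨n₀, hn₀D, hn₀⟩ := hval (S0.pt 1 0) (hK0S S0 1 0 (one_dvd _))
    rw [hcon S0 1 0 (one_dvd _)] at hn₀
    refine ⟨n₀, K0 * ∏ b ∈ (Finset.range (D + 1)).erase n₀, (h - fun _ => (b : ℂ)), hprodR _,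
      fun S => ?_, fun g hg hgv => ?_⟩
    · have hpt : S.p = S.pt 1 S.y := by
        unfold Spec.p Spec.pt
        rw [pow_one]
      rw [Pi.mul_apply, Finset.prod_apply]
      refine mul_ne_zero (hpt ▸ hK0S S 1 S.y (one_dvd _)) (Finset.prod_ne_zero_iff.2 ?_)
      intro b hb
      rw [Pi.sub_apply, hpt, hcon S 1 S.y (one_dvd _), hn₀, sub_ne_zero]
      exact_mod_cast (Finset.ne_of_mem_erase hb).symm
    · rw [hprodM, mul_one, mul_assoc, ← L.M_mul _ _ (HYY_bd_prod _ _ fun b =>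
        HYY_bd_sub hbh (HYY_bd_const _)) hg, hrep _ g hg]
      have h2 : (∏ b ∈ (Finset.range (D + 1)).erase n₀, (f a0 - fun _ => (b : ℂ))) * g = 0 := by
        ext v
        rw [Pi.mul_apply, Finset.prod_apply]
        by_cases hv : (B v).count 0 = n₀
        · rw [hgv v ⟨B v, hB v, hv⟩, mul_zero]
          rfl
        · have h3 : ∏ b ∈ (Finset.range (D + 1)).erase n₀,
              (f a0 - fun _ => (b : ℂ) : A.Pl → ℂ) v = 0 := by
            refine Finset.prod_eq_zero (Finset.mem_erase.2 ⟨hv,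
              Finset.mem_range.2 (Nat.lt_succ_of_le (hfle v))⟩) ?_
            rw [Pi.sub_apply, hfv, sub_self]
          rw [h3, zero_mul]
          rfl
      rw [h2, HYY_M0, mul_zero]
  · refine ⟨0, 0, AddSubgroup.zero_mem _, fun S => absurd ⟨S⟩ hSpec, fun g _ _ => ?_⟩
    have h1 : (fun v => (0 : A.Pt → ℂ) (A.frob v)) = (0 : A.Pl → ℂ) := rfl
    rw [h1, HYY_M0, zero_mul]

end Pool.H66.SYM
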