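import Pool.Agent.H66.SYM.Basic

/-!
LMA: the multiplicity of the zero weight is the same at all special points.
-/

namespace Pool.H66.SYM

open Filter Topology

theorem LMA_ev_smul {m : ℕ} (k : ℤ) (φ : (Fin m → ℤ) →₀ ℤ) (c : Fin m → ℂ) :
    ev (k • φ) c = k * ev φ c := by
  unfold ev
  rw [Finsupp.sum_smul_index (fun a => by simp), Finsupp.mul_sum]
  refine Finsupp.sum_congr fun a _ => ?_
  push_cast
  ring

theorem LMA_ev_msum {m : ℕ} {ι : Type*} (B : Multiset ι) (f : ι → (Fin m → ℤ) →₀ ℤ)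
    (c : Fin m → ℂ) : ev (B.map f).sum c = (B.map fun b => ev (f b) c).sum := by
  induction B using Multiset.induction_on with
  | empty => simp [ev_zero]
  | cons b B ih => rw [Multiset.map_cons, Multiset.sum_cons, ev_add, ih, Multiset.map_cons,
      Multiset.sum_cons]

/-- The combination of monomials belonging to a pattern. -/
noncomputable def LMA_phi {m : ℕ} (D u : ℕ) (B : Multiset (Fin m → ℤ)) : (Fin m → ℤ) →₀ ℤ :=
  ∑ j ∈ Finset.Icc 1 D, ((u : ℤ) ^ j) •
    (B.map fun a => Finsupp.single ((j : ℤ) • a) (1 : ℤ)).sum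

theorem LMA_phi_ev {m : ℕ} (D u : ℕ) (B : Multiset (Fin m → ℤ)) (c : Fin m → ℂ) :
    ev (LMA_phi D u B) c = ∑ j ∈ Finset.Icc 1 D, (u : ℂ) ^ j *
      (B.map fun a => mon c a ^ j).sum := by
  unfold LMA_phi
  rw [ev_sum]
  refine Finset.sum_congr rfl fun j _ => ?_
  rw [LMA_ev_smul, LMA_ev_msum]
  push_cast
  congr 2
  refine Multiset.map_congr rfl fun a _ => ?_
  rw [ev_single, mon_smul]
  push_cast
  rw [one_mul, zpow_natCast]

theorem LMA_msum_apply {m : ℕ} (j : ℤ) (B : Multiset (Fin m → ℤ)) (a : Fin m → ℤ) :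
    ((B.map fun b => Finsupp.single (j • b) (1 : ℤ)).sum) a =
      (B.map fun b => if j • b = a then (1 : ℤ) else 0).sum := by
  induction B using Multiset.induction_on with
  | empty => simp
  | cons b B ih =>
    rw [Multiset.map_cons, Multiset.sum_cons, Finsupp.add_apply, ih, Multiset.map_cons,
      Multiset.sum_cons, Finsupp.single_apply]

theorem LMA_phi_apply {m : ℕ} (D u : ℕ) (B : Multiset (Fin m → ℤ)) (a : Fin m → ℤ) :
    LMA_phi D u B a = ∑ j ∈ Finset.Icc 1 D, (u : ℤ) ^ j *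
      (B.map fun b => if (j : ℤ) • b = a then (1 : ℤ) else 0).sum := by
  unfold LMA_phi
  rw [Finsupp.finset_sum_apply]
  refine Finset.sum_congr rfl fun j _ => ?_
  rw [Finsupp.smul_apply, LMA_msum_apply, smul_eq_mul]

theorem LMA_phi_perm {m : ℕ} (D u : ℕ) (B : Multiset (Fin m → ℤ)) (σ : Equiv.Perm (Fin m))
    (a : Fin m → ℤ) : LMA_phi D u (B.map fun b => b ∘ σ.symm) a = LMA_phi D u B (a ∘ σ) := by
  rw [LMA_phi_apply, LMA_phi_apply]
  refine Finset.sum_congr rfl fun j _ => ?_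
  rw [Multiset.map_map]
  congr 2
  refine Multiset.map_congr rfl fun b _ => ?_
  have h : ((j : ℤ) • (b ∘ σ.symm) = a) ↔ ((j : ℤ) • b = a ∘ σ) := by
    constructor
    · rintro rfl
      ext i
      simp
    · intro h
      ext i
      have := congrFun h (σ.symm i)
      simpa using this
  simp only [Function.comp_def] at h ⊢
  by_cases h1 : ((j : ℤ) • fun x => b (σ.symm x)) = a
  · rw [if_pos h1, if_pos (h.1 h1)]
  · rw [if_neg h1, if_neg (fun h2 => h1 (h.2 h2))]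

theorem LMA_phi_supp {m : ℕ} (D u H : ℕ) (B : Multiset (Fin m → ℤ))
    (hB : ∀ a ∈ B, a ∈ Wt m 0 H) : ∀ a ∈ (LMA_phi D u B).support, a ∈ Wt m 0 (D * H) := by
  intro a ha
  rw [Finsupp.mem_support_iff, LMA_phi_apply] at ha
  obtain ⟨j, hj, hj0⟩ := Finset.exists_ne_zero_of_sum_ne_zero ha
  have h1 : (B.map fun b => if (j : ℤ) • b = a then (1 : ℤ) else 0).sum ≠ 0 :=
    fun h => hj0 (by rw [h, mul_zero])
  have h2 : ∃ b ∈ B, (j : ℤ) • b = a := by
    by_contra hn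
    push Not at hn
    apply h1
    apply Multiset.sum_eq_zero
    intro x hx
    obtain ⟨b, hb, rfl⟩ := Multiset.mem_map.1 hx
    rw [if_neg (hn b hb)]
  obtain ⟨b, hb, rfl⟩ := h2
  have h3 := Wt_smul (hB b hb) j
  rw [mul_zero] at h3
  exact Wt_mono (Nat.mul_le_mul_right H (Finset.mem_Icc.1 hj).2) h3

/-- The patterns with multiplicity `n₀` of the zero weight. -/
def LMA_I (m H D n₀ : ℕ) : Set (Multiset (Fin m → ℤ)) :=
  {B | (∀ a ∈ B, a ∈ Wt m 0 H) ∧ B.card = D ∧ B.count 0 = n₀}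

theorem LMA_fin (m H D n₀ : ℕ) : (LMA_I m H D n₀).Finite := by
  classical
  refine Set.Finite.subset (((((Wt_finite m 0 H).toFinset).sym D).finite_toSet).image
    (fun s : Sym (Fin m → ℤ) D => (s : Multiset (Fin m → ℤ)))) ?_
  rintro B ⟨h1, h2, -⟩
  refine ⟨⟨B, h2⟩, ?_, rfl⟩
  rw [Finset.mem_coe, Finset.mem_sym_iff]
  intro a ha
  rw [Set.Finite.mem_toFinset]
  exact h1 a ha

theorem LMA_mem {m H D n₀ : ℕ} {B : Multiset (Fin m → ℤ)} (hB : B ∈ LMA_I m H D n₀)
    (σ : Equiv.Perm (Fin m)) : (B.map fun b => b ∘ σ) ∈ LMA_I m H D n₀ := by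
  classical
  obtain ⟨h1, h2, h3⟩ := hB
  refine ⟨?_, by rw [Multiset.card_map, h2], ?_⟩
  · intro a ha
    obtain ⟨b, hb, rfl⟩ := Multiset.mem_map.1 ha
    exact Wt_comp (h1 b hb) σ
  · have hinj : Function.Injective (fun b : Fin m → ℤ => b ∘ σ) := by
      intro b b' hbb
      ext i
      have := congrFun hbb (σ.symm i)
      simpa using this
    have h4 := Multiset.count_map_eq_count' (fun b : Fin m → ℤ => b ∘ σ) B hinj 0
    rw [← h3, ← h4]
    congr

/-- The action of the symmetric group on the patterns. -/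
def LMA_act (m H D n₀ : ℕ) (σ : Equiv.Perm (Fin m)) : Equiv.Perm (LMA_I m H D n₀) where
  toFun B := ⟨B.1.map fun b => b ∘ σ.symm, LMA_mem B.2 σ.symm⟩
  invFun B := ⟨B.1.map fun b => b ∘ σ, LMA_mem B.2 σ⟩
  left_inv B := by
    apply Subtype.ext
    show ((B.1.map fun b => b ∘ σ.symm).map fun b => b ∘ σ) = B.1
    rw [Multiset.map_map]
    conv_rhs => rw [← Multiset.map_id B.1]
    refine Multiset.map_congr rfl fun b _ => ?_
    ext i
    simp
  right_inv B := by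
    apply Subtype.ext
    show ((B.1.map fun b => b ∘ σ).map fun b => b ∘ σ.symm) = B.1
    rw [Multiset.map_map]
    conv_rhs => rw [← Multiset.map_id B.1]
    refine Multiset.map_congr rfl fun b _ => ?_
    ext i
    simp

theorem s_LMA (hHYY : S_HYY) (hSPR : S_SPR) (hPIG : S_PIG) (hPSU : S_PSU) (hPEX : S_PEX)
    (hRPS : S_RPS) (hRMU : S_RMU) (hBAS : S_BAS) : S_LMA := by
  classical
  intro m H
  obtain ⟨M₀, hM₀⟩ := hHYY m H
  refine ⟨max M₀ (2 * H), fun A τ M hM ctx hL y hy => ?_⟩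
  obtain ⟨L⟩ := hL
  obtain ⟨n₀, K, hK, hKS, hKf⟩ := hM₀ A τ M (le_trans (le_max_left _ _) hM) ctx L y hy
  refine ⟨n₀, fun S B hB => ?_⟩
  set D := A.deg y with hD
  obtain ⟨bcard, bne, bpow, -⟩ := hBAS A
  have ctm := ctx.hm
  have ctd := ctx.deg
  obtain ⟨-, -, -, rmul, rle, rmono⟩ := hRMU A τ m (ctx.sym 2) ctm ctd
  haveI : Fintype (LMA_I m H D n₀) := (LMA_fin m H D n₀).fintype
  -- the function `Y_u`
  let Y : ℕ → A.Pt → ℂ := fun u p => ∑ j ∈ Finset.Icc 1 D, (u : ℂ) ^ j * A.tr y (p.pow j)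
  have hyRH : A.tr y ∈ A.RH τ m 0 H := AddSubgroup.subset_closure ⟨y, hy, rfl⟩
  have hY : ∀ u, Y u ∈ A.RH τ m 0 (D * H) := by
    intro u
    have h1 : Y u = ∑ j ∈ Finset.Icc 1 D, ((u : ℤ) ^ j) • (fun p => A.tr y (p.pow j)) := by
      ext p
      simp only [Y, Finset.sum_apply, Pi.smul_apply, zsmul_eq_mul]
      refine Finset.sum_congr rfl fun j _ => ?_
      push_cast
      rfl
    rw [h1]
    refine AddSubgroup.sum_mem _ fun j hj => AddSubgroup.zsmul_mem _ ?_ _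
    have h2 := (hRPS A τ m ctx.sym ctm ctd).2.1 0 H (A.tr y) hyRH j (Finset.mem_Icc.1 hj).1
    rw [mul_zero] at h2
    exact rmono _ _ _ (Nat.mul_le_mul_right H (Finset.mem_Icc.1 hj).2) h2
  have hYp : ∀ u p, Y u p = ∑ j ∈ Finset.Icc 1 D, (u : ℂ) ^ j *
      ((A.eig y p).map fun a => a ^ j).sum := by
    intro u p
    refine Finset.sum_congr rfl fun j _ => ?_
    show (u : ℂ) ^ j * (A.eig y (p.pow j)).sum = _
    rw [bpow y p j]
    simp only [zpow_natCast]
  have hX : ∀ u : ℕ, ∃ X ∈ A.RR τ m, ∀ p (c : Fin m → ℂ), A.Ord τ p c →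
      X p = ∏ i : LMA_I m H D n₀, (Y u p - ev (LMA_phi D u i.1) c) := by
    intro u
    obtain ⟨X, hX, hX'⟩ := hSPR A τ m ctx.sym ctm ctd 0 (D * H) (Y u) (hY u) (LMA_I m H D n₀)
      (fun i => LMA_phi D u i.1) (fun σ => LMA_act m H D n₀ σ)
      (fun i a ha => LMA_phi_supp D u H i.1 i.2.1 a ha)
      (fun σ i a => LMA_phi_perm D u i.1 σ a)
    exact ⟨X, rle _ _ hX, hX'⟩
  have hzero : ∀ u : ℕ, ∃ i ∈ LMA_I m H D n₀, ∑ j ∈ Finset.Icc 1 D, (u : ℂ) ^ j *
      (A.tr y (S.p.pow j) - (i.map fun a => mon S.c a ^ j).sum) = 0 := by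
    intro u
    obtain ⟨X, hXR, hXp⟩ := hX u
    have h1 : K * X ∈ A.RR τ m := rmul K hK X hXR
    have h2 : L.M (fun v => X (A.frob v)) = L.M (fun v => X (A.frob v)) := rfl
    have h3 := hKf (fun v => X (A.frob v)) (L.bd X hXR) (by
      rintro v ⟨B', ⟨hB1, hB2⟩, hB3⟩
      have h4 : B' ∈ LMA_I m H D n₀ := by
        refine ⟨hB1, ?_, hB3⟩
        rw [hD, ← bcard y (A.frob v), hB2, Multiset.card_map]
      show X (A.frob v) = 0
      rw [hXp (A.frob v) (L.c v) (L.c_ord v)]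
      refine Finset.prod_eq_zero (Finset.mem_univ ⟨B', h4⟩) ?_
      rw [hYp, LMA_phi_ev, hB2]
      simp only [Multiset.map_map, Function.comp_def, sub_self])
    have h5 : L.M (fun v => (K * X) (A.frob v)) = 0 := by
      have h6 := L.M_mul (fun v => K (A.frob v)) (fun v => X (A.frob v)) (L.bd K hK) (L.bd X hXR)
      rw [h3] at h6
      exact h6
    have h7 := L.inj (K * X) h1 h5
    have h8 : K S.p * X S.p = 0 := congrFun h7 S.p
    have h9 : X S.p = 0 := (mul_eq_zero.1 h8).resolve_left (hKS S)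
    rw [hXp S.p S.c (S.ord _)] at h9
    obtain ⟨i, -, hi⟩ := Finset.prod_eq_zero_iff.1 h9
    refine ⟨i.1, i.2, ?_⟩
    rw [LMA_phi_ev] at hi
    rw [← hi, ← Finset.sum_sub_distrib]
    refine Finset.sum_congr rfl fun j _ => ?_
    ring
  obtain ⟨i, hi, hij⟩ := hPIG (Multiset (Fin m → ℤ)) (LMA_I m H D n₀) (LMA_fin m H D n₀) D
    (fun i j => A.tr y (S.p.pow j) - (i.map fun a => mon S.c a ^ j).sum) hzero
  have hcardy : (A.eig y S.p).card = D := bcard y S.p
  have heq : A.eig y S.p = i.map (mon S.c) := by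
    refine hPSU D _ _ hcardy (by rw [Multiset.card_map]; exact hi.2.1) fun n hn hnD => ?_
    have h1 := sub_eq_zero.1 (hij n hn hnD)
    rw [Multiset.map_map]
    show ((A.eig y S.p).map fun a => a ^ n).sum = (i.map fun a => mon S.c a ^ n).sum
    rw [← h1]
    show _ = (A.eig y (S.p.pow n)).sum
    rw [bpow y S.p n]
    simp only [zpow_natCast]
  have hc : ∀ j, S.c j ≠ 0 := by
    intro j
    refine mul_ne_zero ?_ (zpow_ne_zero _ (Units.ne_zero _))
    intro h
    have h1 := S.z_pow j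
    rw [h, zero_pow S.N_pos.ne'] at h1
    exact zero_ne_one h1
  have hgen : Gen (2 * H) S.c := Gen.mono S.gen (le_trans (le_max_right _ _) hM)
  have h1 := (hPEX A τ m 0 H y hy S.p S.c (S.ord _)).2 hc hgen B i hB ⟨hi.1, heq⟩
  rw [h1]
  exact hi.2.2

end Pool.H66.SYM
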